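import Pool.Agent.H95.FH.Defs

/-!
# Crew FH, part SQA (MP_ce7760_an)
-/

set_option autoImplicit false

open MvPolynomial

namespace Pool.Agent.H41.FH
open H95.FG H95.FH

/-- the restriction of `F` to the lines through `a`, with variable direction -/
noncomputable def ln (a : Fin 3 → ℂ) (F : MvPolynomial (Fin 3) ℂ) :
    Polynomial (MvPolynomial (Fin 3) ℂ) :=
  aeval (fun k => Polynomial.C (C (a k)) + Polynomial.X * Polynomial.C (X k)) F

theorem ln_eval (a v : Fin 3 → ℂ) (t : ℂ) (F : MvPolynomial (Fin 3) ℂ) :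
    ((ln a F).map (eval v)).eval t = eval (a + t • v) F := by
  unfold ln
  induction F using MvPolynomial.induction_on with
  | C c =>
    rw [aeval_C, eval_C]
    show ((Polynomial.C (C c)).map (eval v)).eval t = c
    simp
  | add p q hp hq => rw [map_add, Polynomial.map_add, Polynomial.eval_add, hp, hq, map_add]
  | mul_X p k hp =>
    rw [map_mul, Polynomial.map_mul, Polynomial.eval_mul, hp, aeval_X, map_mul, eval_X]
    congr 1
    rw [Polynomial.map_add, Polynomial.map_mul, Polynomial.map_C, Polynomial.map_C,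
      Polynomial.map_X, Polynomial.eval_add, Polynomial.eval_mul, Polynomial.eval_C,
      Polynomial.eval_C, Polynomial.eval_X, eval_C, eval_X]
    rfl

theorem zero_of_open (H : MvPolynomial (Fin 3) ℂ) (v0 : Fin 3 → ℂ) (δ : ℝ) (hδ : 0 < δ)
    (h : ∀ v, ‖v - v0‖ < δ → eval v H = 0) : H = 0 := by
  apply MvPolynomial.funext
  intro x
  rw [map_zero]
  have h0 : (ln v0 H).map (eval (x - v0)) = 0 := by
    apply Polynomial.eq_zero_of_infinite_isRoot
    have hr : 0 < δ / (‖x - v0‖ + 1) := by positivity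
    refine Set.Infinite.mono ?_ (infinite_of_mem_nhds (0 : ℂ) (Metric.ball_mem_nhds (0 : ℂ) hr))
    intro t ht
    rw [mem_ball_zero_iff] at ht
    show Polynomial.IsRoot _ t
    rw [Polynomial.IsRoot, ln_eval]
    apply h
    rw [add_sub_cancel_left, norm_smul]
    have h1 : 0 ≤ ‖x - v0‖ := norm_nonneg _
    rw [lt_div_iff₀ (by positivity)] at ht
    nlinarith [norm_nonneg t]
  have h1 := congrArg (Polynomial.eval 1) h0
  rw [ln_eval, Polynomial.eval_zero, one_smul, add_sub_cancel] at h1
  exact h1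

theorem eq_of_open (H K : MvPolynomial (Fin 3) ℂ) (v0 : Fin 3 → ℂ) (δ : ℝ) (hδ : 0 < δ)
    (h : ∀ v, ‖v - v0‖ < δ → eval v H = eval v K) : H = K := by
  rw [← sub_eq_zero]
  apply zero_of_open _ v0 δ hδ
  intro v hv
  rw [map_sub, h v hv, sub_self]

theorem ln_natDegree (a : Fin 3 → ℂ) (F : MvPolynomial (Fin 3) ℂ) (n : ℕ)
    (hF : F.IsHomogeneous n) : (ln a F).natDegree ≤ n := by
  unfold ln
  rw [aeval_def, eval₂_eq']
  refine Polynomial.natDegree_sum_le_of_forall_le _ _ fun d hd => ?_
  refine Polynomial.natDegree_mul_le.trans ?_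
  have h1 : (algebraMap ℂ (Polynomial (MvPolynomial (Fin 3) ℂ)) (coeff d F)).natDegree = 0 :=
    Polynomial.natDegree_C _
  rw [h1, zero_add]
  refine (Polynomial.natDegree_prod_le _ _).trans ?_
  have h2 : ∀ i : Fin 3, ((Polynomial.C (C (a i)) + Polynomial.X * Polynomial.C (X i) :
      Polynomial (MvPolynomial (Fin 3) ℂ)) ^ d i).natDegree ≤ d i := by
    intro i
    refine Polynomial.natDegree_pow_le.trans ?_
    have : (Polynomial.C (C (a i)) + Polynomial.X * Polynomial.C (X i) :
      Polynomial (MvPolynomial (Fin 3) ℂ)).natDegree ≤ 1 := by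
      refine (Polynomial.natDegree_add_le _ _).trans ?_
      rw [Polynomial.natDegree_C, max_eq_right (Nat.zero_le _)]
      refine Polynomial.natDegree_mul_le.trans ?_
      rw [Polynomial.natDegree_C]
      exact Polynomial.natDegree_X_le
    nlinarith
  refine (Finset.sum_le_sum fun i _ => h2 i).trans ?_
  have h3 := le_totalDegree hd
  rw [Finsupp.sum_fintype _ _ (fun _ => rfl)] at h3
  exact h3.trans hF.totalDegree_le

theorem t_SQA : S_SQA := by
  intro F z0 v0 δ hδ hF h0 hg
  obtain ⟨r, hr⟩ : ∃ r : ℂ, r ^ 2 = eval z0 F := IsAlgClosed.exists_pow_nat_eq _ (by norm_num)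
  have hr0 : r ≠ 0 := by
    rintro rfl
    apply h0
    rw [← hr]; norm_num
  set P := ln z0 F with hP
  set S1 : MvPolynomial (Fin 3) ℂ := C (1 / (2 * r)) * P.coeff 1 with hS1
  set S2 : MvPolynomial (Fin 3) ℂ := C (1 / (2 * r)) * (P.coeff 2 - S1 ^ 2) with hS2
  -- the coefficients on the ball
  have key : ∀ v, ‖v - v0‖ < δ → eval v (P.coeff 0) = r ^ 2 ∧
      eval v (P.coeff 1) = 2 * r * eval v S1 ∧
      eval v (P.coeff 2) = 2 * r * eval v S2 + eval v S1 ^ 2 ∧
      eval v (P.coeff 3) = 2 * eval v S1 * eval v S2 ∧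
      eval v (P.coeff 4) = eval v S2 ^ 2 := by
    intro v hv
    obtain ⟨g, hg⟩ := hg v hv
    have e1 : P.map (eval v) = g * g := by
      apply Polynomial.funext
      intro t
      rw [ln_eval, hg t, Polynomial.eval_mul, sq]
    have hdeg : (g * g).natDegree ≤ 4 := by
      rw [← e1]
      exact Polynomial.natDegree_map_le.trans (ln_natDegree z0 F 4 hF)
    have hgd : g.natDegree ≤ 2 := by
      by_cases hgz : g = 0
      · rw [hgz]; simp
      · rw [Polynomial.natDegree_mul hgz hgz] at hdeg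
        omega
    have g3 : g.coeff 3 = 0 := Polynomial.coeff_eq_zero_of_natDegree_lt (by omega)
    have g4 : g.coeff 4 = 0 := Polynomial.coeff_eq_zero_of_natDegree_lt (by omega)
    have c : ∀ n, eval v (P.coeff n) = (g * g).coeff n := by
      intro n
      rw [← e1, Polynomial.coeff_map]
    have c0 : (g * g).coeff 0 = g.coeff 0 ^ 2 := by
      rw [Polynomial.mul_coeff_zero]; ring
    have c1 : (g * g).coeff 1 = 2 * g.coeff 0 * g.coeff 1 := by
      rw [Polynomial.coeff_mul]
      simp [Finset.Nat.antidiagonal_succ]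
      ring
    have c2 : (g * g).coeff 2 = 2 * g.coeff 0 * g.coeff 2 + g.coeff 1 ^ 2 := by
      rw [Polynomial.coeff_mul]
      simp [Finset.Nat.antidiagonal_succ]
      ring
    have c3 : (g * g).coeff 3 = 2 * g.coeff 1 * g.coeff 2 := by
      rw [Polynomial.coeff_mul]
      simp [Finset.Nat.antidiagonal_succ, g3]
      ring
    have c4 : (g * g).coeff 4 = g.coeff 2 ^ 2 := by
      rw [Polynomial.coeff_mul]
      simp [Finset.Nat.antidiagonal_succ, g3, g4]
      ring
    have f0 : g.coeff 0 ^ 2 = r ^ 2 := by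
      have h1 := hg 0
      rw [zero_smul, add_zero, ← hr, ← Polynomial.coeff_zero_eq_eval_zero] at h1
      exact h1.symm
    have s1 : eval v S1 = eval v (P.coeff 1) / (2 * r) := by
      rw [hS1, map_mul, eval_C]; ring
    have s2 : eval v S2 = (eval v (P.coeff 2) - eval v S1 ^ 2) / (2 * r) := by
      rw [hS2, map_mul, eval_C, map_sub, map_pow]; ring
    rw [c 1, c1] at s1
    rw [c 2, c2, s1] at s2
    rw [c 0, c 1, c 2, c 3, c 4, c0, c1, c2, c3, c4, s1, s2]
    have hg0 : g.coeff 0 = r ∨ g.coeff 0 = -r := sq_eq_sq_iff_eq_or_eq_neg.1 f0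
    rcases hg0 with hg0 | hg0 <;> rw [hg0] <;> refine ⟨?_, ?_, ?_, ?_, ?_⟩ <;> field_simp <;> ring
  have k0 : P.coeff 0 = C r ^ 2 := by
    apply eq_of_open _ _ v0 δ hδ
    intro v hv
    rw [(key v hv).1]; simp
  have k1 : P.coeff 1 = 2 * C r * S1 := by
    apply eq_of_open _ _ v0 δ hδ
    intro v hv
    rw [(key v hv).2.1]; simp
  have k2 : P.coeff 2 = 2 * C r * S2 + S1 ^ 2 := by
    apply eq_of_open _ _ v0 δ hδ
    intro v hv
    rw [(key v hv).2.2.1]; simp
  have k3 : P.coeff 3 = 2 * S1 * S2 := by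
    apply eq_of_open _ _ v0 δ hδ
    intro v hv
    rw [(key v hv).2.2.2.1]; simp
  have k4 : P.coeff 4 = S2 ^ 2 := by
    apply eq_of_open _ _ v0 δ hδ
    intro v hv
    rw [(key v hv).2.2.2.2]; simp
  refine ⟨aeval (fun k => X k - C (z0 k)) (C r + S1 + S2), ?_⟩
  apply MvPolynomial.funext
  intro x
  have hx := ln_eval z0 (x - z0) 1 F
  rw [one_smul, add_sub_cancel, ← hP] at hx
  have hd : (P.map (eval (x - z0))).natDegree < 5 :=
    lt_of_le_of_lt (Polynomial.natDegree_map_le.trans (ln_natDegree z0 F 4 hF)) (by norm_num)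
  rw [Polynomial.eval_eq_sum_range' hd] at hx
  simp only [Finset.sum_range_succ, Finset.sum_range_zero, Polynomial.coeff_map, one_pow,
    mul_one, zero_add, k0, k1, k2, k3, k4] at hx
  have hy : ∀ H : MvPolynomial (Fin 3) ℂ,
      eval x (aeval (fun k => X k - C (z0 k)) H) = eval (x - z0) H := by
    intro H
    induction H using MvPolynomial.induction_on with
    | C c =>
      rw [aeval_C, eval_C]
      show eval x (C c) = c
      rw [eval_C]
    | add p q hp hq => rw [map_add, map_add, map_add, hp, hq]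
    | mul_X p k hp =>
      rw [map_mul, map_mul, map_mul, hp, aeval_X, eval_X, map_sub, eval_X, eval_C]
      rfl
  rw [map_pow, hy, ← hx]
  simp only [map_add, map_mul, map_pow, eval_C, map_ofNat]
  ring

end Pool.Agent.H41.FH
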